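import Mathlib

set_option autoImplicit false

/-!
# Edge and vertex capacities in the directed hypercube: no bound `c * r * dvol S`

The coordinates are split into `K + 1` and `2 a + 1` coordinates, `x = (u, w)`. The set `S` consists
of the points with `2 ≤ |u|`, of the points with `u = {0}` and `|w| ≤ a` (an anti-majority block)
and of the points with `u = {i}`, `i ≠ 0`, and `w` not containing the coordinate `0` (anti-dictator
blocks). All pairs `s ≺ t` with `s ∈ S` and `t ∉ S` lie inside one block. In every directed volume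
certificate all points of the blocks are matched, the anti-dictator blocks contribute the distance
`1` and the anti-majority block contributes distances of average about `√a`. So the separation
distance is about `√a / K` when `K` is smaller than `√a`. But the `K * 4 ^ a` edges of the
anti-dictators and the `4 ^ a` lower vertices of the anti-majority block cut all paths from `S` to
its complement. With `K = B ^ p` and `a = B ^ (2 p + 2)` the separation distance `r` is at most
`3 B`, the cut has capacity at most `(K + r ^ p) 4 ^ a`, a constant times `B ^ p 4 ^ a`, while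
`r * dvol S` is at least `B ^ (p + 1) 4 ^ a`.
-/

namespace Pool.Agent.Results.MP_02b125_co.NoFlowBound

open Finset

/-- Points of the hypercube `{0,1}^d`, each given by the set of its coordinates that equal `1`:
`x ⊆ y` is the coordinatewise order, `x ⊂ y` its strict version and `x.card` is `|x|`. -/
abbrev Cube (d : ℕ) : Type := Finset (Fin d)

/-- The directed edges `x → y` of the hypercube: one coordinate is changed from `0` to `1`. -/
def IsEdge {d : ℕ} (x y : Cube d) : Prop := ∃ i, i ∉ x ∧ y = insert i x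

/-- Matched pairs `(A, B; φ)`. -/
structure IsMatchedPair {d : ℕ} (A B : Finset (Cube d)) (φ : Cube d → Cube d) : Prop where
  bijOn : Set.BijOn φ (A : Set (Cube d)) (B : Set (Cube d))
  lt : ∀ a ∈ A, a ⊂ φ a

/-- The directed volume of `S`: the largest size of `A` over all matched pairs `(A, B; φ)` with
`A ⊆ S` and `B` contained in the complement of `S`. -/
noncomputable def dvol {d : ℕ} (S : Finset (Cube d)) : ℕ :=
  sSup {n | ∃ (A B : Finset (Cube d)) (φ : Cube d → Cube d),
    IsMatchedPair A B φ ∧ A ⊆ S ∧ B ⊆ Sᶜ ∧ A.card = n}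

/-- Directed volume certificates of `S`: matched pairs attaining the directed volume. -/
def IsCertificate {d : ℕ} (S A B : Finset (Cube d)) (φ : Cube d → Cube d) : Prop :=
  IsMatchedPair A B φ ∧ A ⊆ S ∧ B ⊆ Sᶜ ∧ A.card = dvol S

/-- The separation distance of a matched pair: the average of `|φ a| - |a|` over `a ∈ A`. -/
noncomputable def pairDist {d : ℕ} (A : Finset (Cube d)) (φ : Cube d → Cube d) : ℝ :=
  (∑ a ∈ A, (((φ a).card : ℝ) - (a.card : ℝ))) / (A.card : ℝ)

/-- The separation distance of `S`: the minimum over all directed volume certificates of `S` of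
their separation distance. -/
noncomputable def sepDist {d : ℕ} (S : Finset (Cube d)) : ℝ :=
  sInf {ρ | ∃ (A B : Finset (Cube d)) (φ : Cube d → Cube d),
    IsCertificate S A B φ ∧ ρ = pairDist A φ}

/-- A flow in the network for `S` with edge capacities `cE` and vertex capacities `cV`: `f x y` is
the flow on the edge `x → y`, `p x` the flow on the arc from the source node to `x` (only present
for `x ∈ S`), `q x` the flow on the arc from `x` to the sink node (only present for `x ∉ S`). -/
structure Flow {d : ℕ} (S : Finset (Cube d)) (cE cV : ℝ) where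
  f : Cube d → Cube d → ℝ
  p : Cube d → ℝ
  q : Cube d → ℝ
  f_nonneg : ∀ x y, 0 ≤ f x y
  f_le : ∀ x y, IsEdge x y → f x y ≤ cE
  f_supp : ∀ x y, ¬ IsEdge x y → f x y = 0
  p_nonneg : ∀ x, 0 ≤ p x
  p_supp : ∀ x, x ∉ S → p x = 0
  q_nonneg : ∀ x, 0 ≤ q x
  q_supp : ∀ x, x ∈ S → q x = 0
  conserve : ∀ x, p x + ∑ y, f y x = q x + ∑ y, f x y
  vertex_le : ∀ x, p x + ∑ y, f y x ≤ cV

/-- The value of a flow: the total flow leaving the source node. -/
noncomputable def Flow.value {d : ℕ} {S : Finset (Cube d)} {cE cV : ℝ} (F : Flow S cE cV) : ℝ :=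
  ∑ x, F.p x

/-- The maximum flow value. -/
noncomputable def maxflow {d : ℕ} (S : Finset (Cube d)) (cE cV : ℝ) : ℝ :=
  sSup {v | ∃ F : Flow S cE cV, v = F.value}

/-! ### Weak duality -/

lemma Flow.value_le {d : ℕ} {S : Finset (Cube d)} {cE cV : ℝ} (F : Flow S cE cV)
    (X : Finset (Cube d)) (hX : X ⊆ S) :
    F.value ≤ cV * X.card + ∑ x ∈ S \ X, ∑ y ∈ Sᶜ, F.f x y := by
  have h1 : F.value = ∑ x ∈ S, F.p x := by
    unfold Flow.value
    symm
    apply sum_subset (subset_univ _)
    intro x _ hx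
    exact F.p_supp x hx
  have h2 : ∑ x ∈ S, F.p x = ∑ x ∈ S \ X, F.p x + ∑ x ∈ X, F.p x :=
    (sum_sdiff hX).symm
  have hall : ∀ x, ∑ y, F.f x y = ∑ y ∈ S \ X, F.f x y + ∑ y ∈ X, F.f x y + ∑ y ∈ Sᶜ, F.f x y := by
    intro x
    rw [sum_sdiff hX, sum_add_sum_compl]
  have h3 : ∑ x ∈ S \ X, F.p x = ∑ x ∈ S \ X, (∑ y, F.f x y - ∑ y, F.f y x) := by
    apply sum_congr rfl
    intro x hx
    have hc := F.conserve x
    have hq := F.q_supp x (mem_sdiff.1 hx).1
    linarith
  have h4 : ∑ x ∈ S \ X, ∑ y, F.f y x ≥ ∑ x ∈ S \ X, ∑ y ∈ S \ X, F.f y x := by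
    apply sum_le_sum
    intro x _
    exact sum_le_sum_of_subset_of_nonneg (subset_univ _) (fun y _ _ => F.f_nonneg y x)
  have h5 : ∑ x ∈ S \ X, ∑ y ∈ S \ X, F.f y x = ∑ x ∈ S \ X, ∑ y ∈ S \ X, F.f x y := sum_comm
  have h6 : ∑ x ∈ S \ X, ∑ y ∈ X, F.f x y ≤ ∑ y ∈ X, ∑ x, F.f x y := by
    rw [sum_comm]
    apply sum_le_sum
    intro y _
    exact sum_le_sum_of_subset_of_nonneg (subset_univ _) (fun x _ _ => F.f_nonneg x y)
  have h7 : ∑ x ∈ X, F.p x + ∑ y ∈ X, ∑ x, F.f x y ≤ cV * X.card := by
    rw [← sum_add_distrib]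
    calc ∑ x ∈ X, (F.p x + ∑ y, F.f y x) ≤ ∑ _x ∈ X, cV := sum_le_sum (fun x _ => F.vertex_le x)
      _ = cV * X.card := by rw [sum_const, nsmul_eq_mul, mul_comm]
  have h8 : ∑ x ∈ S \ X, ∑ y, F.f x y = ∑ x ∈ S \ X, ∑ y ∈ S \ X, F.f x y +
      ∑ x ∈ S \ X, ∑ y ∈ X, F.f x y + ∑ x ∈ S \ X, ∑ y ∈ Sᶜ, F.f x y := by
    rw [← sum_add_distrib, ← sum_add_distrib]
    exact sum_congr rfl (fun x _ => hall x)
  rw [sum_sub_distrib] at h3
  linarith

/-! ### Matchings between levels of the cube -/

lemma card_above (n k : ℕ) (hk : k ≤ n) (w : Finset (Fin n)) (hw : w.card = k) :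
    (univ.filter fun y : Finset (Fin n) => w ⊆ y ∧ y.card = n - k).card = (n - k).choose k := by
  have h1 : (univ.filter fun y : Finset (Fin n) => w ⊆ y ∧ y.card = n - k) =
      (powersetCard k wᶜ).image (fun z => zᶜ) := by
    ext y
    simp only [mem_filter, mem_univ, true_and, mem_image, mem_powersetCard]
    constructor
    · rintro ⟨h1, h2⟩
      refine ⟨yᶜ, ⟨compl_subset_compl.2 h1, ?_⟩, compl_compl y⟩
      rw [card_compl, Fintype.card_fin, h2]
      omega
    · rintro ⟨z, ⟨h1, h2⟩, rfl⟩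
      refine ⟨?_, ?_⟩
      · intro i hi
        rw [mem_compl]
        intro h
        exact (mem_compl.1 (h1 h)) hi
      · rw [card_compl, Fintype.card_fin, h2]
  rw [h1, card_image_of_injective _ compl_injective, card_powersetCard, card_compl,
    Fintype.card_fin, hw]

lemma level_matching (n k : ℕ) (hk : 2 * k ≤ n) : ∃ ψ : Finset (Fin n) → Finset (Fin n),
    (∀ w, w.card = k → w ⊆ ψ w ∧ (ψ w).card = n - k) ∧
    (∀ w w', w.card = k → w'.card = k → ψ w = ψ w' → w = w') := by
  classical
  let t : {w : Finset (Fin n) // w.card = k} → Finset (Finset (Fin n)) := fun w =>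
    univ.filter fun y : Finset (Fin n) => w.1 ⊆ y ∧ y.card = n - k
  have hall : ∀ s : Finset {w : Finset (Fin n) // w.card = k},
      s.card ≤ (s.biUnion t).card := by
    intro s
    have hpos : 0 < (n - k).choose k := Nat.choose_pos (by omega)
    have key : s.card * (n - k).choose k ≤ (s.biUnion t).card * (n - k).choose k := by
      apply card_mul_le_card_mul
        (fun (w : {w : Finset (Fin n) // w.card = k}) (y : Finset (Fin n)) => w.1 ⊆ y)
      · intro w hw
        rw [← card_above n k (by omega) w.1 w.2]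
        apply card_le_card
        intro y hy
        rw [mem_bipartiteAbove, mem_biUnion]
        exact ⟨⟨w, hw, hy⟩, (mem_filter.1 hy).2.1⟩
      · intro y hy
        rw [mem_biUnion] at hy
        obtain ⟨w, _, hy⟩ := hy
        have hyc : y.card = n - k := (mem_filter.1 hy).2.2
        rw [← hyc, ← card_powersetCard]
        apply card_le_card_of_injOn (fun w => w.1)
        · intro z hz
          rw [mem_coe, mem_bipartiteBelow] at hz
          rw [mem_coe, mem_powersetCard]
          exact ⟨hz.2, z.2⟩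
        · intro z _ z' _ h
          exact Subtype.ext h
    exact Nat.le_of_mul_le_mul_right key hpos
  obtain ⟨g, hg, hgt⟩ := (Finset.all_card_le_biUnion_card_iff_exists_injective t).1 hall
  refine ⟨fun w => if h : w.card = k then g ⟨w, h⟩ else w, ?_, ?_⟩
  · intro w hw
    simp only [hw, dif_pos]
    exact (mem_filter.1 (hgt ⟨w, hw⟩)).2
  · intro w w' hw hw' h
    simp only [hw, hw', dif_pos] at h
    exact congrArg Subtype.val (hg h)

lemma half_matching (a : ℕ) : ∃ ψ : Finset (Fin (2 * a + 1)) → Finset (Fin (2 * a + 1)),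
    (∀ w, w.card ≤ a → w ⊂ ψ w ∧ a < (ψ w).card) ∧
    (∀ w w', w.card ≤ a → w'.card ≤ a → ψ w = ψ w' → w = w') := by
  have h : ∀ k : ℕ, ∃ ψ : Finset (Fin (2 * a + 1)) → Finset (Fin (2 * a + 1)), k ≤ a →
    (∀ w, w.card = k → w ⊆ ψ w ∧ (ψ w).card = 2 * a + 1 - k) ∧
    (∀ w w', w.card = k → w'.card = k → ψ w = ψ w' → w = w') := by
    intro k
    by_cases hk : k ≤ a
    · obtain ⟨ψ, h⟩ := level_matching (2 * a + 1) k (by omega)
      exact ⟨ψ, fun _ => h⟩
    · exact ⟨id, fun h => absurd h hk⟩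
  choose ψ hψ using h
  refine ⟨fun w => ψ w.card w, ?_, ?_⟩
  · intro w hw
    obtain ⟨h1, h2⟩ := (hψ w.card hw).1 w rfl
    refine ⟨?_, by simp only [h2]; omega⟩
    refine ssubset_of_subset_of_ne h1 ?_
    intro h
    have := congrArg card h
    rw [h2] at this
    omega
  · intro w w' hw hw' h
    have h1 := ((hψ w.card hw).1 w rfl).2
    have h2 := ((hψ w'.card hw').1 w' rfl).2
    have hc : w.card = w'.card := by
      have := congrArg card h
      simp only [h1, h2] at this
      omega
    refine (hψ w.card hw).2 w w' rfl hc.symm ?_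
    simp only at h
    rw [h, hc]

/-! ### Splitting the coordinates -/

section split

variable {m n : ℕ}

/-- The point with first part `u` and second part `w`. -/
def J (u : Finset (Fin m)) (w : Finset (Fin n)) : Cube (m + n) :=
  (u.disjSum w).map finSumFinEquiv.toEmbedding

/-- The first part of a point. -/
def U (x : Cube (m + n)) : Finset (Fin m) := (x.map finSumFinEquiv.symm.toEmbedding).toLeft

/-- The second part of a point. -/
def W (x : Cube (m + n)) : Finset (Fin n) := (x.map finSumFinEquiv.symm.toEmbedding).toRight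

lemma map_map_symm (y : Finset (Fin m ⊕ Fin n)) :
    (y.map finSumFinEquiv.toEmbedding).map finSumFinEquiv.symm.toEmbedding = y := by
  ext z
  simp

lemma map_symm_map (y : Finset (Fin (m + n))) :
    (y.map (finSumFinEquiv (m := m) (n := n)).symm.toEmbedding).map
      (finSumFinEquiv (m := m) (n := n)).toEmbedding = y := by
  ext z
  simp

lemma U_J (u : Finset (Fin m)) (w : Finset (Fin n)) : U (J u w) = u := by
  unfold U J
  rw [map_map_symm, toLeft_disjSum]

lemma W_J (u : Finset (Fin m)) (w : Finset (Fin n)) : W (J u w) = w := by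
  unfold W J
  rw [map_map_symm, toRight_disjSum]

lemma J_U_W (x : Cube (m + n)) : J (U x) (W x) = x := by
  unfold U W J
  rw [toLeft_disjSum_toRight, map_symm_map]

lemma card_J (u : Finset (Fin m)) (w : Finset (Fin n)) : (J u w).card = u.card + w.card := by
  unfold J
  rw [card_map, card_disjSum]

lemma U_mono {x y : Cube (m + n)} (h : x ⊆ y) : U x ⊆ U y :=
  toLeft_subset_toLeft (map_subset_map.2 h)

lemma W_mono {x y : Cube (m + n)} (h : x ⊆ y) : W x ⊆ W y :=
  toRight_subset_toRight (map_subset_map.2 h)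

lemma J_mono {u u' : Finset (Fin m)} {w w' : Finset (Fin n)} (hu : u ⊆ u') (hw : w ⊆ w') :
    J u w ⊆ J u' w' := map_subset_map.2 (disjSum_mono hu hw)

lemma J_inj {u u' : Finset (Fin m)} {w w' : Finset (Fin n)} (h : J u w = J u' w') :
    u = u' ∧ w = w' := by
  refine ⟨?_, ?_⟩
  · rw [← U_J u w, h, U_J]
  · rw [← W_J u w, h, W_J]

end split

lemma IsEdge.card {d : ℕ} {x y : Cube d} (h : IsEdge x y) : y.card = x.card + 1 := by
  obtain ⟨i, hi, rfl⟩ := h
  exact card_insert_of_notMem hi

lemma IsEdge.ssubset {d : ℕ} {x y : Cube d} (h : IsEdge x y) : x ⊂ y := by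
  obtain ⟨i, hi, rfl⟩ := h
  exact ssubset_insert hi

/-! ### The sets -/

section sets

variable (K a : ℕ)

/-- The lower half of the block with index `i`: for `i = 0` the lower half of the cube, for the
other `i` the points whose first coordinate is `0`. -/
def low (i : Fin (K + 1)) (w : Finset (Fin (2 * a + 1))) : Prop :=
  if i = 0 then w.card ≤ a else (0 : Fin (2 * a + 1)) ∉ w

/-- The upper half of the block with index `i`. -/
def high (i : Fin (K + 1)) (w : Finset (Fin (2 * a + 1))) : Prop := ¬ low K a i w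

open Classical in
/-- The set `S`. -/
noncomputable def SS : Finset (Cube (K + 1 + (2 * a + 1))) :=
  univ.filter fun x => 2 ≤ (U x).card ∨ ∃ i, U x = {i} ∧ low K a i (W x)

open Classical in
/-- Points of the blocks satisfying a property. -/
noncomputable def blk (P : Fin (K + 1) → Finset (Fin (2 * a + 1)) → Prop) :
    Finset (Cube (K + 1 + (2 * a + 1))) :=
  univ.filter fun x => ∃ i, U x = {i} ∧ P i (W x)

variable {K a}

lemma low_compl (i : Fin (K + 1)) (w : Finset (Fin (2 * a + 1))) :
    low K a i wᶜ ↔ ¬ low K a i w := by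
  unfold low
  split_ifs with h
  · rw [card_compl, Fintype.card_fin]
    have : w.card ≤ 2 * a + 1 := by simpa using card_le_univ w
    omega
  · simp

lemma high_compl (i : Fin (K + 1)) (w : Finset (Fin (2 * a + 1))) :
    high K a i wᶜ ↔ low K a i w := by
  unfold high
  rw [low_compl, not_not]

lemma mem_blk (P : Fin (K + 1) → Finset (Fin (2 * a + 1)) → Prop)
    (x : Cube (K + 1 + (2 * a + 1))) : x ∈ blk K a P ↔ ∃ i, U x = {i} ∧ P i (W x) := by
  classical
  simp [blk]

lemma mem_SS (x : Cube (K + 1 + (2 * a + 1))) :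
    x ∈ SS K a ↔ 2 ≤ (U x).card ∨ ∃ i, U x = {i} ∧ low K a i (W x) := by
  classical
  simp [SS]

lemma violation {x y : Cube (K + 1 + (2 * a + 1))} (hx : x ∈ SS K a) (hy : y ∉ SS K a)
    (hxy : x ⊂ y) : ∃ i, U x = {i} ∧ U y = {i} ∧ low K a i (W x) ∧ ¬ low K a i (W y) := by
  rw [mem_SS] at hx hy
  push Not at hy
  obtain ⟨hy1, hy2⟩ := hy
  have hU := U_mono hxy.1
  rcases hx with hx | ⟨i, hi, hl⟩
  · have := card_le_card hU
    omega
  · have h1 : U y = {i} := by
      symm
      apply eq_of_subset_of_card_le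
      · rw [← hi]; exact hU
      · rw [card_singleton]; omega
    exact ⟨i, hi, h1, hl, hy2 i h1⟩

open Classical in
lemma sum_blk (P : Fin (K + 1) → Finset (Fin (2 * a + 1)) → Prop)
    (g : Cube (K + 1 + (2 * a + 1)) → ℝ) :
    ∑ x ∈ blk K a P, g x = ∑ i, ∑ w ∈ univ.filter (P i), g (J {i} w) := by
  have h1 : blk K a P = ((univ ×ˢ univ : Finset (Fin (K + 1) × Finset (Fin (2 * a + 1)))).filter
      (fun p => P p.1 p.2)).image (fun p => J {p.1} p.2) := by
    ext x
    rw [mem_blk, mem_image]
    constructor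
    · rintro ⟨i, h1, h2⟩
      refine ⟨(i, W x), by simpa using h2, ?_⟩
      simp only
      rw [← h1, J_U_W]
    · rintro ⟨⟨i, w⟩, h1, rfl⟩
      refine ⟨i, U_J _ _, ?_⟩
      rw [W_J]
      simpa using h1
  rw [h1, sum_image, sum_filter, sum_product]
  · apply sum_congr rfl
    intro i _
    rw [sum_filter]
  · rintro ⟨i, w⟩ _ ⟨i', w'⟩ _ h
    obtain ⟨h1, h2⟩ := J_inj h
    rw [singleton_inj] at h1
    exact Prod.ext h1 h2

open Classical in
lemma card_low (i : Fin (K + 1)) : (univ.filter (low K a i)).card = 4 ^ a ∧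
    (univ.filter (high K a i)).card = 4 ^ a := by
  have h1 : (univ.filter (low K a i)).card = (univ.filter (high K a i)).card := by
    apply card_bij (fun w _ => wᶜ)
    · intro w hw
      simp only [mem_filter, mem_univ, true_and] at hw ⊢
      exact (high_compl i w).2 hw
    · intro w _ w' _ h
      exact compl_injective h
    · intro w hw
      simp only [mem_filter, mem_univ, true_and] at hw
      refine ⟨wᶜ, ?_, compl_compl w⟩
      simp only [mem_filter, mem_univ, true_and]
      exact (low_compl i w).2 hw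
  have h2 := card_filter_add_card_filter_not (s := (univ : Finset (Finset (Fin (2 * a + 1)))))
    (low K a i)
  rw [card_univ, Fintype.card_finset, Fintype.card_fin] at h2
  have h3 : 2 ^ (2 * a + 1) = 2 * 4 ^ a := by
    rw [pow_succ, pow_mul]
    norm_num
    ring
  have h4 : (univ.filter (high K a i)).card = (univ.filter (fun w => ¬ low K a i w)).card := by
    congr 1
    ext w
    simp [high]
  omega

open Classical in
lemma sum_low_ne (i : Fin (K + 1)) (hi : i ≠ 0) :
    ∑ w ∈ univ.filter (high K a i), (w.card : ℝ) =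
      ∑ w ∈ univ.filter (low K a i), (w.card : ℝ) + 4 ^ a := by
  have h1 : ∑ w ∈ univ.filter (high K a i), (w.card : ℝ) =
      ∑ w ∈ univ.filter (low K a i), ((w.card : ℝ) + 1) := by
    symm
    apply sum_bij (fun w _ => insert 0 w)
    · intro w hw
      simp [high, low, hi]
    · intro w hw w' hw' h
      simp only [mem_filter, mem_univ, true_and, low, hi, if_false] at hw hw'
      rw [← erase_insert hw, h, erase_insert hw']
    · intro w hw
      simp only [mem_filter, mem_univ, true_and, high, low, hi, if_false, not_not] at hw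
      refine ⟨w.erase 0, ?_, insert_erase hw⟩
      simp [low, hi]
    · intro w hw
      simp only [mem_filter, mem_univ, true_and, low, hi, if_false] at hw
      rw [card_insert_of_notMem hw]
      push_cast
      ring
  rw [h1, sum_add_distrib, sum_const, nsmul_eq_mul, (card_low i).1]
  push_cast
  ring

lemma alt_sum (n j : ℕ) (hj : j < n) : ∑ k ∈ range (j + 1), (n.choose k : ℝ) * ((n : ℝ) - 2 * k) =
    ((j : ℝ) + 1) * (n.choose (j + 1) : ℝ) := by
  induction j with
  | zero => simp
  | succ j ih =>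
    rw [sum_range_succ, ih (by omega)]
    have h := Nat.choose_succ_right_eq n (j + 1)
    have h' : (n.choose (j + 1 + 1) : ℝ) * ((j : ℝ) + 1 + 1) =
        (n.choose (j + 1) : ℝ) * ((n : ℝ) - (j + 1)) := by
      have := congrArg (Nat.cast : ℕ → ℝ) h
      push_cast [Nat.cast_sub (show j + 1 ≤ n by omega)] at this
      exact this
    push_cast
    linarith

open Classical in
lemma sum_low_zero : ∑ w ∈ univ.filter (high K a 0), (w.card : ℝ) =
      ∑ w ∈ univ.filter (low K a 0), (w.card : ℝ) + (2 * a + 1) * (a.centralBinom : ℝ) := by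
  have h1 : ∑ w ∈ univ.filter (high K a 0), (w.card : ℝ) =
      ∑ w ∈ univ.filter (low K a 0), ((2 * a + 1 : ℝ) - w.card) := by
    symm
    apply sum_bij (fun w _ => wᶜ)
    · intro w hw
      simp only [mem_filter, mem_univ, true_and] at hw ⊢
      exact (high_compl 0 w).2 hw
    · intro w _ w' _ h
      exact compl_injective h
    · intro w hw
      simp only [mem_filter, mem_univ, true_and] at hw
      refine ⟨wᶜ, ?_, compl_compl w⟩
      simp only [mem_filter, mem_univ, true_and]
      exact (low_compl 0 w).2 hw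
    · intro w hw
      have : w.card ≤ 2 * a + 1 := by simpa using card_le_univ w
      rw [card_compl, Fintype.card_fin, Nat.cast_sub this]
      push_cast
      ring
  have h2 : ∑ w ∈ univ.filter (low K a 0), ((2 * a + 1 : ℝ) - 2 * w.card) =
      (2 * a + 1) * (a.centralBinom : ℝ) := by
    have h3 : ∑ w ∈ univ.filter (low K a 0), ((2 * a + 1 : ℝ) - 2 * w.card) =
        ∑ w ∈ (univ : Finset (Fin (2 * a + 1))).powerset,
          (fun k : ℕ => if k ≤ a then ((2 * a + 1 : ℝ) - 2 * k) else 0) w.card := by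
      rw [sum_filter, powerset_univ]
      apply sum_congr rfl
      intro w _
      simp [low]
    rw [h3]
    have h3' := Finset.sum_powerset_apply_card
      (fun k : ℕ => if k ≤ a then ((2 * a + 1 : ℝ) - 2 * k) else 0)
      (x := (univ : Finset (Fin (2 * a + 1))))
    rw [h3', card_univ, Fintype.card_fin]
    have h4 : ∑ k ∈ range (2 * a + 1 + 1), (2 * a + 1).choose k •
        (if k ≤ a then ((2 * a + 1 : ℝ) - 2 * k) else 0) =
        ∑ k ∈ range (a + 1), (((2 * a + 1).choose k : ℕ) : ℝ) *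
          (((2 * a + 1 : ℕ) : ℝ) - 2 * k) := by
      symm
      rw [← sum_subset (range_subset_range.2 (show a + 1 ≤ 2 * a + 1 + 1 by omega))]
      · apply sum_congr rfl
        intro k hk
        rw [mem_range] at hk
        rw [if_pos (by omega), nsmul_eq_mul]
        push_cast
        ring
      · intro k _ hk
        rw [mem_range] at hk
        rw [if_neg (by omega), smul_zero]
    rw [h4, alt_sum (2 * a + 1) a (by omega)]
    have h5 := Nat.add_one_mul_choose_eq (2 * a) a
    rw [← Nat.centralBinom_eq_two_mul_choose] at h5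
    have h6 := congrArg (Nat.cast : ℕ → ℝ) h5
    push_cast at h6
    rw [h6]
    ring
  have h7 : ∑ w ∈ univ.filter (low K a 0), ((2 * a + 1 : ℝ) - 2 * w.card) =
      ∑ w ∈ univ.filter (low K a 0), ((2 * a + 1 : ℝ) - w.card) -
      ∑ w ∈ univ.filter (low K a 0), (w.card : ℝ) := by
    rw [← sum_sub_distrib]
    apply sum_congr rfl
    intro w _
    ring
  rw [h1]
  linarith

variable (K a) in
/-- The points of `S` below a point outside `S`. -/
noncomputable def A0 : Finset (Cube (K + 1 + (2 * a + 1))) := blk K a (low K a)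

variable (K a) in
/-- The points outside `S` above a point of `S`. -/
noncomputable def B0 : Finset (Cube (K + 1 + (2 * a + 1))) := blk K a (high K a)

lemma card_A0_real : ((A0 K a).card : ℝ) = (K + 1) * 4 ^ a := by
  classical
  have h := sum_blk (low K a) (fun _ => 1)
  simp only [sum_const, nsmul_eq_mul, mul_one, (card_low _).1] at h
  unfold A0
  rw [h]
  simp

lemma card_B0_real : ((B0 K a).card : ℝ) = (K + 1) * 4 ^ a := by
  classical
  have h := sum_blk (high K a) (fun _ => 1)
  simp only [sum_const, nsmul_eq_mul, mul_one, (card_low _).2] at h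
  unfold B0
  rw [h]
  simp

lemma card_A0_eq : (A0 K a).card = (B0 K a).card := by
  have := (card_A0_real (K := K) (a := a)).trans (card_B0_real (K := K) (a := a)).symm
  exact_mod_cast this

variable (K a) in
/-- The total distance of every certificate. -/
noncomputable def D : ℝ := K * 4 ^ a + (2 * a + 1) * (a.centralBinom : ℝ)

lemma sum_dist : ∑ y ∈ B0 K a, (y.card : ℝ) - ∑ x ∈ A0 K a, (x.card : ℝ) = D K a := by
  classical
  unfold A0 B0
  rw [sum_blk, sum_blk, ← sum_sub_distrib]
  have h1 : ∀ i : Fin (K + 1),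
      ∑ w ∈ univ.filter (high K a i), ((J {i} w).card : ℝ) -
        ∑ w ∈ univ.filter (low K a i), ((J {i} w).card : ℝ) =
      if i = 0 then (2 * a + 1) * (a.centralBinom : ℝ) else 4 ^ a := by
    intro i
    simp only [card_J, card_singleton, Nat.cast_add, Nat.cast_one, sum_add_distrib, sum_const,
      nsmul_eq_mul, mul_one, (card_low i).1, (card_low i).2]
    split_ifs with h
    · subst h
      rw [sum_low_zero]
      ring
    · rw [sum_low_ne i h]
      ring
  rw [sum_congr rfl (fun i _ => h1 i), Fin.sum_univ_succ]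
  simp only [if_true, Fin.succ_ne_zero, if_false, sum_const, card_univ, Fintype.card_fin,
    nsmul_eq_mul]
  unfold D
  ring

lemma mem_A0_of {A B : Finset (Cube (K + 1 + (2 * a + 1)))}
    {φ : Cube (K + 1 + (2 * a + 1)) → Cube (K + 1 + (2 * a + 1))} (h : IsMatchedPair A B φ)
    (hA : A ⊆ SS K a) (hB : B ⊆ (SS K a)ᶜ) : A ⊆ A0 K a ∧ B ⊆ B0 K a := by
  have key : ∀ x ∈ A, x ∈ A0 K a ∧ φ x ∈ B0 K a := by
    intro x hx
    have hφ : φ x ∈ B := h.bijOn.mapsTo hx
    obtain ⟨i, h1, h2, h3, h4⟩ := violation (hA hx) (mem_compl.1 (hB hφ)) (h.lt x hx)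
    exact ⟨(mem_blk _ _).2 ⟨i, h1, h3⟩, (mem_blk _ _).2 ⟨i, h2, h4⟩⟩
  refine ⟨fun x hx => (key x hx).1, ?_⟩
  intro y hy
  obtain ⟨x, hx, rfl⟩ := h.bijOn.surjOn hy
  exact (key x hx).2

lemma A0_subset : A0 K a ⊆ SS K a := by
  intro x hx
  rw [A0, mem_blk] at hx
  rw [mem_SS]
  exact Or.inr hx

lemma exists_cert : ∃ (B : Finset (Cube (K + 1 + (2 * a + 1))))
    (φ : Cube (K + 1 + (2 * a + 1)) → Cube (K + 1 + (2 * a + 1))),
    IsMatchedPair (A0 K a) B φ ∧ A0 K a ⊆ SS K a ∧ B ⊆ (SS K a)ᶜ := by
  classical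
  obtain ⟨ψ, hψ1, hψ2⟩ := half_matching a
  let φ : Cube (K + 1 + (2 * a + 1)) → Cube (K + 1 + (2 * a + 1)) := fun x =>
    if U x = {0} then J (U x) (ψ (W x)) else J (U x) (insert 0 (W x))
  have hφ : ∀ x ∈ A0 K a, ∃ i, U x = {i} ∧ U (φ x) = {i} ∧ x ⊂ φ x ∧ ¬ low K a i (W (φ x)) := by
    intro x hx
    rw [A0, mem_blk] at hx
    obtain ⟨i, hi, hl⟩ := hx
    refine ⟨i, hi, ?_⟩
    by_cases h0 : i = 0
    · subst h0
      have hl' : (W x).card ≤ a := by simpa [low] using hl
      have e : φ x = J (U x) (ψ (W x)) := by simp only [φ, hi, if_true]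
      obtain ⟨h1, h2⟩ := hψ1 _ hl'
      rw [e, U_J, W_J]
      refine ⟨hi, ?_, ?_⟩
      · refine ssubset_of_subset_of_ne ?_ ?_
        · conv_lhs => rw [← J_U_W x]
          exact J_mono (Subset.refl _) h1.1
        · intro h
          have := congrArg W h
          rw [W_J] at this
          exact h1.ne this
      · simp only [low, if_true]
        omega
    · have hl' : (0 : Fin (2 * a + 1)) ∉ W x := by simpa [low, h0] using hl
      have e : φ x = J (U x) (insert 0 (W x)) := by
        have : U x ≠ {0} := by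
          rw [hi]
          intro h
          exact h0 (singleton_inj.1 h)
        simp only [φ, this, if_false]
      rw [e, U_J, W_J]
      refine ⟨hi, ?_, ?_⟩
      · refine ssubset_of_subset_of_ne ?_ ?_
        · conv_lhs => rw [← J_U_W x]
          exact J_mono (Subset.refl _) (subset_insert _ _)
        · intro h
          have := congrArg W h
          rw [W_J] at this
          rw [this] at hl'
          exact hl' (mem_insert_self _ _)
      · simp [low, h0]
  have hinj : Set.InjOn φ (A0 K a) := by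
    intro x hx y hy h
    obtain ⟨i, h1, h2, _⟩ := hφ x hx
    obtain ⟨j, h3, h4, _⟩ := hφ y hy
    have hij : i = j := by
      rw [h, h4] at h2
      exact (singleton_inj.1 h2).symm
    subst hij
    have hx' := hx
    have hy' := hy
    rw [mem_coe, A0, mem_blk] at hx' hy'
    obtain ⟨i1, hi1, hl1⟩ := hx'
    obtain ⟨i2, hi2, hl2⟩ := hy'
    have e1 : i1 = i := singleton_inj.1 (hi1.symm.trans h1)
    have e2 : i2 = i := singleton_inj.1 (hi2.symm.trans h3)
    subst e1 
    rw [e2] at hl2
    rw [← J_U_W x, ← J_U_W y, h1, h3]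
    congr 1
    by_cases h0 : i1 = 0
    · subst h0
      simp only [low, if_true] at hl1 hl2
      simp only [φ, h1, h3, if_true] at h
      exact hψ2 _ _ hl1 hl2 (J_inj h).2
    · simp only [low, h0, if_false] at hl1 hl2
      have hne : ({i1} : Finset (Fin (K + 1))) ≠ {0} := fun h => h0 (singleton_inj.1 h)
      simp only [φ, h1, h3, hne, if_false] at h
      have := (J_inj h).2
      rw [← erase_insert hl1, this, erase_insert hl2]
  refine ⟨(A0 K a).image φ, φ, ⟨?_, ?_⟩, A0_subset, ?_⟩
  · rw [coe_image]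
    exact hinj.bijOn_image
  · intro x hx
    obtain ⟨i, _, _, h, _⟩ := hφ x hx
    exact h
  · intro y hy
    rw [mem_image] at hy
    obtain ⟨x, hx, rfl⟩ := hy
    obtain ⟨i, _, h2, _, h4⟩ := hφ x hx
    rw [mem_compl, mem_SS]
    push Not
    refine ⟨by rw [h2, card_singleton]; norm_num, ?_⟩
    intro j hj
    have : i = j := singleton_inj.1 (h2.symm.trans hj)
    subst this
    exact h4

lemma dvol_SS : dvol (SS K a) = (A0 K a).card := by
  obtain ⟨B, φ, h1, h2, h3⟩ := exists_cert (K := K) (a := a)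
  have hub : ∀ n ∈ {n | ∃ (A B : Finset (Cube (K + 1 + (2 * a + 1))))
      (φ : Cube (K + 1 + (2 * a + 1)) → Cube (K + 1 + (2 * a + 1))),
      IsMatchedPair A B φ ∧ A ⊆ SS K a ∧ B ⊆ (SS K a)ᶜ ∧ A.card = n}, n ≤ (A0 K a).card := by
    rintro n ⟨A, B, φ, h, hA, hB, rfl⟩
    exact card_le_card (mem_A0_of h hA hB).1
  unfold dvol
  apply le_antisymm
  · exact csSup_le ⟨_, A0 K a, B, φ, h1, h2, h3, rfl⟩ hub
  · exact le_csSup ⟨_, hub⟩ ⟨A0 K a, B, φ, h1, h2, h3, rfl⟩

lemma pairDist_cert {A B : Finset (Cube (K + 1 + (2 * a + 1)))}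
    {φ : Cube (K + 1 + (2 * a + 1)) → Cube (K + 1 + (2 * a + 1))}
    (h : IsCertificate (SS K a) A B φ) : pairDist A φ = D K a / (A0 K a).card := by
  classical
  obtain ⟨hm, hA, hB, hc⟩ := h
  obtain ⟨h1, h2⟩ := mem_A0_of hm hA hB
  rw [dvol_SS] at hc
  have eA : A = A0 K a := eq_of_subset_of_card_le h1 hc.ge
  have hBc : B.card = A.card := by
    have himg : A.image φ = B := by
      apply coe_injective
      rw [coe_image]
      exact hm.bijOn.image_eq
    rw [← himg]
    exact card_image_of_injOn hm.bijOn.injOn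
  have eB : B = B0 K a := by
    apply eq_of_subset_of_card_le h2
    rw [hBc, hc, card_A0_eq]
  have hs : ∑ x ∈ A, ((φ x).card : ℝ) = ∑ y ∈ B, (y.card : ℝ) := by
    apply sum_bij (fun x _ => φ x)
    · intro x hx
      exact hm.bijOn.mapsTo hx
    · intro x hx y hy h
      exact hm.bijOn.injOn hx hy h
    · intro y hy
      obtain ⟨x, hx, hxy⟩ := hm.bijOn.surjOn hy
      exact ⟨x, hx, hxy⟩
    · intro x _
      rfl
  unfold pairDist
  rw [sum_sub_distrib, hs, eA, eB, sum_dist]

lemma sepDist_SS : sepDist (SS K a) = D K a / (A0 K a).card := by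
  obtain ⟨B, φ, h1, h2, h3⟩ := exists_cert (K := K) (a := a)
  have hcert : IsCertificate (SS K a) (A0 K a) B φ := ⟨h1, h2, h3, dvol_SS.symm⟩
  have hset : {ρ | ∃ (A B : Finset (Cube (K + 1 + (2 * a + 1))))
      (φ : Cube (K + 1 + (2 * a + 1)) → Cube (K + 1 + (2 * a + 1))),
      IsCertificate (SS K a) A B φ ∧ ρ = pairDist A φ} = {D K a / ((A0 K a).card : ℝ)} := by
    ext ρ
    constructor
    · rintro ⟨A, B, φ, h, rfl⟩
      exact pairDist_cert h
    · rintro rfl
      exact ⟨A0 K a, B, φ, hcert, (pairDist_cert hcert).symm⟩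
  unfold sepDist
  rw [hset, csInf_singleton]

/-! ### The cut -/

open Classical in
lemma flow_le {cV : ℝ} (F : Flow (SS K a) 1 cV) : F.value ≤ cV * 4 ^ a + K * 4 ^ a := by
  set X := blk K a (fun i w => i = 0 ∧ low K a i w) with hX
  have hXS : X ⊆ SS K a := by
    intro x hx
    rw [hX, mem_blk] at hx
    obtain ⟨i, h1, _, h2⟩ := hx
    rw [mem_SS]
    exact Or.inr ⟨i, h1, h2⟩
  have hXc : (X.card : ℝ) = 4 ^ a := by
    have h := sum_blk (fun i w => i = 0 ∧ low K a i w) (fun _ => 1)
    rw [sum_const, nsmul_eq_mul, mul_one] at h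
    rw [hX, h, Fin.sum_univ_succ]
    simp only [true_and, Fin.succ_ne_zero, false_and, filter_false, sum_const, nsmul_eq_mul,
      mul_one, (card_low _).1]
    norm_num
  set Y := blk K a (fun i w => i ≠ 0 ∧ low K a i w) with hY
  have hYc : (Y.card : ℝ) = K * 4 ^ a := by
    have h := sum_blk (fun i w => i ≠ 0 ∧ low K a i w) (fun _ => 1)
    rw [sum_const, nsmul_eq_mul, mul_one] at h
    rw [hY, h, Fin.sum_univ_succ]
    simp only [ne_eq, not_true_eq_false, Fin.succ_ne_zero, not_false_eq_true, true_and, false_and,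
      filter_false, sum_const, nsmul_eq_mul, mul_one, (card_low _).1, card_univ,
      Fintype.card_fin]
    norm_num
  have h1 := F.value_le X hXS
  rw [hXc] at h1
  have h2 : ∑ x ∈ SS K a \ X, ∑ y ∈ (SS K a)ᶜ, F.f x y ≤
      ∑ x ∈ SS K a \ X, (if x ∈ Y then (1 : ℝ) else 0) := by
    apply sum_le_sum
    intro x hx
    rw [mem_sdiff] at hx
    by_cases hxY : x ∈ Y
    · rw [if_pos hxY]
      have hxY' := hxY
      rw [hY, mem_blk] at hxY'
      obtain ⟨i, hi, hi0, hl⟩ := hxY'
      have hz : ∀ y ∈ (SS K a)ᶜ, y ≠ J (U x) (insert 0 (W x)) → F.f x y = 0 := by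
        intro y hy hne
        apply F.f_supp
        intro he
        obtain ⟨j, h3, h4, h5, h6⟩ := violation hx.1 (mem_compl.1 hy) he.ssubset
        apply hne
        have hji : j = i := singleton_inj.1 (h3.symm.trans hi)
        subst hji
        simp only [low, hi0, if_false, not_not] at hl h6
        have hsub : insert 0 (W x) ⊆ W y := insert_subset h6 (W_mono he.ssubset.1)
        have hc := he.card
        have hcx : x.card = (U x).card + (W x).card := by
          conv_lhs => rw [← J_U_W x, card_J]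
        have hcy : y.card = (U y).card + (W y).card := by
          conv_lhs => rw [← J_U_W y, card_J]
        rw [h3, card_singleton] at hcx
        rw [h4, card_singleton] at hcy
        have hW : insert 0 (W x) = W y := by
          apply eq_of_subset_of_card_le hsub
          rw [card_insert_of_notMem hl]
          omega
        rw [hW, h3, ← h4, J_U_W]
      by_cases hmem : J (U x) (insert 0 (W x)) ∈ (SS K a)ᶜ
      · rw [sum_eq_single_of_mem _ hmem hz]
        by_cases he : IsEdge x (J (U x) (insert 0 (W x)))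
        · exact F.f_le _ _ he
        · rw [F.f_supp _ _ he]
          norm_num
      · rw [sum_eq_zero (fun y hy => hz y hy (fun h => hmem (h ▸ hy)))]
        norm_num
    · rw [if_neg hxY]
      apply le_of_eq
      apply sum_eq_zero
      intro y hy
      apply F.f_supp
      intro he
      obtain ⟨j, h3, h4, h5, h6⟩ := violation hx.1 (mem_compl.1 hy) he.ssubset
      by_cases hj : j = 0
      · exact hx.2 ((mem_blk _ _).2 ⟨j, h3, hj, h5⟩)
      · exact hxY ((mem_blk _ _).2 ⟨j, h3, hj, h5⟩)
  have h3 : ∑ x ∈ SS K a \ X, (if x ∈ Y then (1 : ℝ) else 0) ≤ Y.card := by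
    rw [← sum_filter, sum_const, nsmul_eq_mul, mul_one]
    have : ((SS K a \ X).filter (fun x => x ∈ Y)).card ≤ Y.card := by
      apply card_le_card
      intro x hx
      exact (mem_filter.1 hx).2
    exact_mod_cast this
  rw [hYc] at h3
  linarith

end sets

/-! ### Numerical estimates -/

lemma cb_sq (n : ℕ) : (n + 1) ^ 2 * (n + 1).centralBinom ^ 2 =
    4 * (2 * n + 1) ^ 2 * n.centralBinom ^ 2 := by
  have h := Nat.succ_mul_centralBinom_succ n
  calc (n + 1) ^ 2 * (n + 1).centralBinom ^ 2 = ((n + 1) * (n + 1).centralBinom) ^ 2 := by ring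
    _ = _ := by rw [h]; ring

lemma cb_lower (n : ℕ) : 16 ^ (n + 1) ≤ 4 * (n + 1) * (n + 1).centralBinom ^ 2 := by
  induction n with
  | zero => norm_num [Nat.centralBinom, Nat.choose]
  | succ n ih =>
    have h := cb_sq (n + 1)
    have h1 : (n + 1 + 1) * 16 ^ (n + 1 + 1) ≤
        (n + 1 + 1) * (4 * (n + 1 + 1) * (n + 1 + 1).centralBinom ^ 2) := by
      calc (n + 1 + 1) * 16 ^ (n + 1 + 1) = 16 * (n + 2) * 16 ^ (n + 1) := by ring
        _ ≤ 16 * (n + 2) * (4 * (n + 1) * (n + 1).centralBinom ^ 2) := Nat.mul_le_mul_left _ ih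
        _ = (64 * (n + 1) * (n + 2)) * (n + 1).centralBinom ^ 2 := by ring
        _ ≤ (16 * (2 * (n + 1) + 1) ^ 2) * (n + 1).centralBinom ^ 2 := by
            apply Nat.mul_le_mul_right
            nlinarith
        _ = 4 * (4 * (2 * (n + 1) + 1) ^ 2 * (n + 1).centralBinom ^ 2) := by ring
        _ = 4 * ((n + 1 + 1) ^ 2 * (n + 1 + 1).centralBinom ^ 2) := by rw [h]
        _ = _ := by ring
    exact Nat.le_of_mul_le_mul_left h1 (by omega)

lemma cb_upper (n : ℕ) : (2 * n + 1) * n.centralBinom ^ 2 ≤ 16 ^ n := by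
  induction n with
  | zero => norm_num [Nat.centralBinom, Nat.choose]
  | succ n ih =>
    have h := cb_sq n
    have h1 : (n + 1) ^ 2 * ((2 * (n + 1) + 1) * (n + 1).centralBinom ^ 2) ≤
        (n + 1) ^ 2 * 16 ^ (n + 1) := by
      calc (n + 1) ^ 2 * ((2 * (n + 1) + 1) * (n + 1).centralBinom ^ 2)
          = (2 * (n + 1) + 1) * ((n + 1) ^ 2 * (n + 1).centralBinom ^ 2) := by ring
        _ = (2 * (n + 1) + 1) * (4 * (2 * n + 1) ^ 2 * n.centralBinom ^ 2) := by rw [h]
        _ = 4 * (2 * n + 3) * (2 * n + 1) * ((2 * n + 1) * n.centralBinom ^ 2) := by ring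
        _ ≤ 4 * (2 * n + 3) * (2 * n + 1) * 16 ^ n := Nat.mul_le_mul_left _ ih
        _ ≤ (16 * (n + 1) ^ 2) * 16 ^ n := by
            apply Nat.mul_le_mul_right
            nlinarith
        _ = _ := by ring
    exact Nat.le_of_mul_le_mul_left h1 (by positivity)

lemma D2_lower (L : ℕ) (hL : 1 ≤ L) :
    L * 4 ^ (L ^ 2) ≤ (2 * L ^ 2 + 1) * (L ^ 2).centralBinom := by
  have ha : 1 ≤ L ^ 2 := Nat.one_le_pow _ _ hL
  have h := cb_lower (L ^ 2 - 1)
  rw [Nat.sub_add_cancel ha] at h
  rw [← Nat.pow_le_pow_iff_left (n := 2) (by norm_num)]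
  calc (L * 4 ^ (L ^ 2)) ^ 2 = L ^ 2 * 16 ^ (L ^ 2) := by
        rw [mul_pow, ← pow_mul, mul_comm (L ^ 2) 2, pow_mul 4 2 (L ^ 2)]
        norm_num
    _ ≤ L ^ 2 * (4 * L ^ 2 * (L ^ 2).centralBinom ^ 2) := Nat.mul_le_mul_left _ h
    _ = (2 * L ^ 2 * (L ^ 2).centralBinom) ^ 2 := by ring
    _ ≤ ((2 * L ^ 2 + 1) * (L ^ 2).centralBinom) ^ 2 := by
        apply Nat.pow_le_pow_left
        apply Nat.mul_le_mul_right
        omega

lemma D2_upper (L : ℕ) (hL : 1 ≤ L) :
    (2 * L ^ 2 + 1) * (L ^ 2).centralBinom ≤ 2 * L * 4 ^ (L ^ 2) := by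
  have ha : 1 ≤ L ^ 2 := Nat.one_le_pow _ _ hL
  have h := cb_upper (L ^ 2)
  rw [← Nat.pow_le_pow_iff_left (n := 2) (by norm_num)]
  calc ((2 * L ^ 2 + 1) * (L ^ 2).centralBinom) ^ 2
      = (2 * L ^ 2 + 1) * ((2 * L ^ 2 + 1) * (L ^ 2).centralBinom ^ 2) := by ring
    _ ≤ (2 * L ^ 2 + 1) * 16 ^ (L ^ 2) := Nat.mul_le_mul_left _ h
    _ ≤ (4 * L ^ 2) * 16 ^ (L ^ 2) := Nat.mul_le_mul_right _ (by omega)
    _ = (2 * L * 4 ^ (L ^ 2)) ^ 2 := by
        rw [mul_pow, ← pow_mul, mul_comm (L ^ 2) 2, pow_mul 4 2 (L ^ 2)]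
        norm_num
        ring

/-- The flow bound fails for vertex capacities `r ^ p`, whatever the exponent `p` is; the case
`p = 2` is the question. -/
theorem result (p : ℕ) (c : ℝ) (hc : 0 < c) :
    ∃ d : ℕ, 2 ≤ d ∧ ∃ S : Finset (Cube d), 1 ≤ dvol S ∧
      maxflow S 1 (sepDist S ^ p) < c * sepDist S * (dvol S : ℝ) := by
  obtain ⟨B0, hB0⟩ := exists_nat_ge ((3 ^ p + 1) / c)
  set B : ℕ := B0 + 1 with hB
  have hB1 : (1 : ℝ) ≤ B := by rw [hB]; push_cast; linarith [Nat.cast_nonneg (α := ℝ) B0]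
  have hcB : (3 : ℝ) ^ p + 1 ≤ c * B := by
    have h1 : (3 ^ p + 1) / c ≤ (B : ℝ) := by rw [hB]; push_cast; linarith
    rw [div_le_iff₀ hc] at h1
    linarith
  set K : ℕ := B ^ p with hK
  set L : ℕ := B ^ (p + 1) with hL
  set a : ℕ := L ^ 2 with ha
  have hL1 : 1 ≤ L := Nat.one_le_pow _ _ (by omega)
  have hLK : (L : ℝ) = B * K := by rw [hL, hK]; push_cast; ring
  have hKR : (K : ℝ) = (B : ℝ) ^ p := by rw [hK]; push_cast; ring
  have hKpos : (0 : ℝ) < K := by rw [hKR]; positivity
  have hN : (0 : ℝ) < 4 ^ a := by positivity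
  have hlo : (L : ℝ) * 4 ^ a ≤ (2 * a + 1) * (a.centralBinom : ℝ) := by
    have := D2_lower L hL1
    rw [← ha] at this
    exact_mod_cast this
  have hup : (2 * a + 1) * (a.centralBinom : ℝ) ≤ 2 * L * 4 ^ a := by
    have := D2_upper L hL1
    rw [← ha] at this
    exact_mod_cast this
  have hcard : ((A0 K a).card : ℝ) = (K + 1) * 4 ^ a := card_A0_real
  have hcpos : (0 : ℝ) < ((A0 K a).card : ℝ) := by rw [hcard]; positivity
  have hr : sepDist (SS K a) = D K a / (A0 K a).card := sepDist_SS
  have hDlo : c * (B * (K * 4 ^ a)) < c * D K a := by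
    apply mul_lt_mul_of_pos_left _ hc
    unfold D
    have : (B : ℝ) * (K * 4 ^ a) = L * 4 ^ a := by rw [hLK]; ring
    rw [this]
    have h1 : 0 < (K : ℝ) * 4 ^ a := by positivity
    linarith
  have hr0 : 0 ≤ sepDist (SS K a) := by
    rw [hr]
    apply div_nonneg _ hcpos.le
    unfold D
    positivity
  have hr1 : sepDist (SS K a) ≤ 3 * B := by
    rw [hr, div_le_iff₀ hcpos, hcard]
    unfold D
    have h1 : (K : ℝ) * 4 ^ a + (2 * a + 1) * (a.centralBinom : ℝ) ≤
        K * 4 ^ a + 2 * L * 4 ^ a := by linarith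
    refine h1.trans ?_
    rw [hLK]
    have h2 : (0 : ℝ) < K * 4 ^ a := by positivity
    nlinarith [mul_le_mul_of_nonneg_right hB1 h2.le]
  have hrp : sepDist (SS K a) ^ p ≤ 3 ^ p * K := by
    calc sepDist (SS K a) ^ p ≤ (3 * B) ^ p := pow_le_pow_left₀ hr0 hr1 p
      _ = 3 ^ p * K := by rw [mul_pow, hKR]
  refine ⟨K + 1 + (2 * a + 1), by omega, SS K a, ?_, ?_⟩
  · rw [dvol_SS]
    have : 0 < (A0 K a).card := by exact_mod_cast hcpos
    omega
  · have hmax : maxflow (SS K a) 1 (sepDist (SS K a) ^ p) ≤ (3 ^ p + 1) * (K * 4 ^ a) := by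
      unfold maxflow
      apply csSup_le
      · refine ⟨_, ⟨fun _ _ => 0, fun _ => 0, fun _ => 0, ?_, ?_, ?_, ?_, ?_, ?_, ?_, ?_, ?_⟩, rfl⟩
        all_goals first
          | (intros; norm_num; done)
          | (intros; simp only [sum_const_zero, add_zero]; exact pow_nonneg hr0 p)
      · rintro v ⟨F, rfl⟩
        refine (flow_le F).trans ?_
        have := mul_le_mul_of_nonneg_right hrp hN.le
        linarith
    have hfin : c * sepDist (SS K a) * (dvol (SS K a) : ℝ) = c * D K a := by
      rw [dvol_SS, hr]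
      field_simp
    rw [hfin]
    calc maxflow (SS K a) 1 (sepDist (SS K a) ^ p) ≤ (3 ^ p + 1) * (K * 4 ^ a) := hmax
      _ ≤ (c * B) * (K * 4 ^ a) := mul_le_mul_of_nonneg_right hcB (by positivity)
      _ = c * (B * (K * 4 ^ a)) := by ring
      _ < c * D K a := hDlo

end Pool.Agent.Results.MP_02b125_co.NoFlowBound
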